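import Mathlib
import Pool.Agent.Work.MP_569662_co.Planar

/-!
# Bipartite planar graphs have no real chromatic root in `[4, ∞)`

The chromatic polynomial of a plane graph is written as a sum over heights on the vertices and the
faces (the Temperley-Lieb representation behind the restricted solid-on-solid models). For a
bipartite graph all terms of the sum are nonnegative, and one of them is positive, when `4 ≤ q`.
-/

namespace Pool.Agent.Results.MP_569662_co.FromFour

open Polynomial

/-- A straight line plane drawing of the graph `G`: the vertices are placed at different points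
`f v` of the plane, no vertex lies on an edge (a closed segment) of which it is not an end, and
two edges without a common end are disjoint. (Then two edges with one common end meet in this
end only.) -/
structure IsStraightDrawing {V : Type} (G : SimpleGraph V) (f : V → ℝ × ℝ) : Prop where
  inj : Function.Injective f
  off : ∀ u v w, G.Adj u v → f w ∈ segment ℝ (f u) (f v) → w = u ∨ w = v
  disj : ∀ u v x y, G.Adj u v → G.Adj x y → u ≠ x → u ≠ y → v ≠ x → v ≠ y →
    Disjoint (segment ℝ (f u) (f v)) (segment ℝ (f x) (f y))

/-- Every finite bipartite planar graph has a positive chromatic polynomial on `[4, ∞)`. -/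
theorem result {V : Type} [Fintype V] (G : SimpleGraph V) (hbip : G.Colorable 2)
    (hplanar : ∃ f : V → ℝ × ℝ, IsStraightDrawing G f) :
    ∃ P : ℝ[X], (∀ n : ℕ, 0 < n → P.eval (n : ℝ) = Nat.card (G.Coloring (Fin n))) ∧
      ∀ q : ℝ, 4 ≤ q → 0 < P.eval q := by
  obtain ⟨f, hf⟩ := hplanar
  have hd : Work.MP_569662_co.IsDrawing G f := ⟨hf.inj, hf.off, hf.disj⟩
  obtain ⟨P, h1, h2, _⟩ := Work.MP_569662_co.swept_pos G hd.swept hbip
  refine ⟨P.map (Int.castRingHom ℝ), ?_, h2⟩
  intro n hn
  have h3 := h1 n hn
  have h4 : (((n : ℤ) : ℝ)) = (n : ℝ) := by norm_cast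
  rw [← h4, Polynomial.eval_map, Polynomial.eval₂_at_intCast, Int.cast_id, h3]
  simp

end Pool.Agent.Results.MP_569662_co.FromFour
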